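import Pool.Agent.Q146.KB.Seam

/-!
# An example: the flat metric
-/

set_option autoImplicit false

open Set MeasureTheory Filter Topology

namespace Pool.Agent.Q146.KB

theorem flat_factor (h : ℝ) : ConformalFactor h (fun _ _ => 1) :=
  ⟨continuous_const, fun _ _ => one_pos, fun _ _ => rfl, fun _ _ => rfl⟩

/-- the seam `u = 0` -/
def flatS (h : ℝ) : Set (ℝ × ℝ) := {p | ∃ k : ℤ, p.2 = 2 * h * k}

/-- its arc length coordinate -/
noncomputable def flatb (h : ℝ) (p : ℝ × ℝ) : AddCircle (2 * Real.pi) :=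
  ((p.1 + (round (p.2 / (2 * h)) : ℝ) * Real.pi : ℝ) : AddCircle (2 * Real.pi))

theorem flatb_eq {h : ℝ} (h0 : 0 < h) (x : ℝ) (k : ℤ) :
    flatb h (x, 2 * h * k) = ((x + (k : ℝ) * Real.pi : ℝ) : AddCircle (2 * Real.pi)) := by
  unfold flatb
  simp only
  rw [show 2 * h * (k : ℝ) / (2 * h) = (k : ℝ) by field_simp, round_intCast]

theorem norm_coe_le (x : ℝ) : ‖(x : AddCircle (2 * Real.pi))‖ ≤ |x| := by
  have h1 := QuotientAddGroup.norm_mk_le_norm (S := AddSubgroup.zmultiples (2 * Real.pi)) (m := x)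
  rwa [Real.norm_eq_abs] at h1

/-- distance between two points of the seam -/
theorem flat_dist {h : ℝ} (hh : Real.pi / 2 ≤ h) (x x' : ℝ) (k k' : ℤ) :
    dist (flatb h (x, 2 * h * k)) (flatb h (x', 2 * h * k')) ≤
      eucl (x, 2 * h * k) (x', 2 * h * k') := by
  have hpi := Real.pi_pos
  have h0 : 0 < h := by linarith
  rw [flatb_eq h0, flatb_eq h0]
  unfold eucl
  simp only
  by_cases hk : k = k'
  · subst hk
    rw [sub_self, dist_eq_norm, ← AddCircle.coe_sub]
    refine (norm_coe_le _).trans (le_of_eq ?_)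
    rw [show (0 : ℝ) ^ 2 = 0 by norm_num, add_zero, Real.sqrt_sq_eq_abs]
    congr 1; ring
  · have h1 : dist ((x + (k : ℝ) * Real.pi : ℝ) : AddCircle (2 * Real.pi))
        ((x' + (k' : ℝ) * Real.pi : ℝ) : AddCircle (2 * Real.pi)) ≤ Real.pi := by
      rw [dist_eq_norm]
      have := AddCircle.norm_le_half_period (p := 2 * Real.pi)
        (x := ((x + (k : ℝ) * Real.pi : ℝ) : AddCircle (2 * Real.pi)) -
          ((x' + (k' : ℝ) * Real.pi : ℝ) : AddCircle (2 * Real.pi))) (by positivity)
      rw [abs_of_pos (by positivity)] at this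
      linarith
    refine h1.trans ?_
    apply Real.le_sqrt_of_sq_le
    have h2 : (1 : ℝ) ≤ ((k : ℝ) - k') ^ 2 := by
      have h3 : (1 : ℤ) ≤ (k - k') ^ 2 := by
        have : k - k' ≠ 0 := sub_ne_zero.2 hk
        have := sq_pos_of_ne_zero this
        omega
      exact_mod_cast h3
    have h4 : (2 * h * (k : ℝ) - 2 * h * k') ^ 2 = (2 * h) ^ 2 * ((k : ℝ) - k') ^ 2 := by ring
    rw [h4]
    have h5 : Real.pi ^ 2 ≤ (2 * h) ^ 2 := by nlinarith
    nlinarith [sq_nonneg (x - x'), sq_nonneg (2 * h)]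

/-- the flat Möbius band of height `2h ≥ π` with boundary of length `2π` has no shortcuts -/
theorem flat_filling {h : ℝ} (hh : Real.pi / 2 ≤ h) :
    Filling h (fun _ _ => 1) (flatS h) (flatb h) := by
  have hpi := Real.pi_pos
  have h0 : 0 < h := by linarith
  refine ⟨?_, ?_, ?_, ?_, ?_, ?_⟩
  · have : flatS h = {p : ℝ × ℝ | Real.sin (p.2 / (2 * h) * Real.pi) = 0} := by
      ext p
      simp only [flatS, mem_setOf_eq, Real.sin_eq_zero_iff]
      constructor
      · rintro ⟨k, hk⟩
        refine ⟨k, ?_⟩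
        rw [hk]; field_simp
      · rintro ⟨k, hk⟩
        refine ⟨k, ?_⟩
        have := mul_right_cancel₀ hpi.ne' hk
        rw [this]; field_simp
    rw [this]
    exact isClosed_eq (by fun_prop) continuous_const
  · rintro x u ⟨k, hk⟩
    simp only at hk
    subst hk
    refine ⟨⟨-k, by push_cast; ring⟩, ?_⟩
    rw [show -(2 * h * (k : ℝ)) = 2 * h * ((-k : ℤ) : ℝ) by push_cast; ring, flatb_eq h0,
      flatb_eq h0, ← AddCircle.coe_add]
    have e : x + Real.pi + ((-k : ℤ) : ℝ) * Real.pi =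
        (x + (k : ℝ) * Real.pi + Real.pi) - k • (2 * Real.pi) := by
      rw [zsmul_eq_mul]; push_cast; ring
    rw [e, AddCircle.coe_sub, AddCircle.coe_zsmul, AddCircle.coe_period, smul_zero, sub_zero]
  · rintro x u ⟨k, hk⟩
    simp only at hk
    subst hk
    refine ⟨⟨k + 1, by push_cast; ring⟩, ?_⟩
    rw [show 2 * h * (k : ℝ) + 2 * h = 2 * h * ((k + 1 : ℤ) : ℝ) by push_cast; ring, flatb_eq h0,
      flatb_eq h0, ← AddCircle.coe_add]
    congr 1
    push_cast; ring
  · intro ε hε
    refine ⟨1, one_pos, ?_⟩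
    rintro ⟨x, u⟩ ⟨k, hk⟩ ⟨x', u'⟩ ⟨k', hk'⟩ _
    simp only at hk hk'
    subst hk
    subst hk'
    have h1 := flat_dist hh x x' k k'
    have h2 : 0 ≤ eucl (x, 2 * h * (k : ℝ)) (x', 2 * h * (k' : ℝ)) := Real.sqrt_nonneg _
    nlinarith [mul_nonneg hε.le h2]
  · intro X U hXU
    obtain ⟨i, j, hij, hc⟩ := hXU.closes
    have hU : Continuous U := hXU.smoothU.continuous
    -- a value in `2 h ℤ` between `U 0` and `U 1`
    have h1 := (hc 0).2
    rw [zero_add] at h1
    have hval : ∀ k : ℤ, 2 * h * (k : ℝ) ∈ uIcc (U 0) (U 1) → ∃ t, (X t, U t) ∈ flatS h := by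
      intro k hk
      have h2 := intermediate_value_uIcc (a := 0) (b := 1) hU.continuousOn hk
      obtain ⟨t, _, ht⟩ := h2
      exact ⟨t, k, ht⟩
    rcases Int.even_or_odd i with hi | hi
    · -- `j` odd
      rw [hi.neg_one_zpow, one_mul] at h1
      have hj : j ≠ 0 := by
        rintro rfl
        rw [add_zero] at hij
        exact (Int.not_even_iff_odd.2 hij) hi
      rcases lt_or_gt_of_ne hj with hj0 | hj0
      · -- going down by at least `2 h`
        have hj1 : (j : ℝ) ≤ -1 := by exact_mod_cast Int.le_sub_one_of_lt hj0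
        apply hval ⌊U 0 / (2 * h)⌋
        have f1 := Int.floor_le (U 0 / (2 * h))
        have f2 := Int.lt_floor_add_one (U 0 / (2 * h))
        rw [le_div_iff₀ (by positivity)] at f1
        rw [div_lt_iff₀ (by positivity)] at f2
        rw [mem_uIcc]
        right
        constructor
        · rw [h1]; nlinarith
        · linarith
      · have hj1 : (1 : ℝ) ≤ (j : ℝ) := by exact_mod_cast hj0
        apply hval ⌈U 0 / (2 * h)⌉
        have f1 := Int.le_ceil (U 0 / (2 * h))
        have f2 := Int.ceil_lt_add_one (U 0 / (2 * h))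
        rw [div_le_iff₀ (by positivity)] at f1
        have f3 : ((⌈U 0 / (2 * h)⌉ : ℝ) - 1) * (2 * h) < U 0 := by
          rw [← lt_div_iff₀ (by positivity)]; linarith
        rw [mem_uIcc]
        left
        constructor
        · linarith
        · rw [h1]; nlinarith
    · -- `i` odd, `j` even
      rw [hi.neg_one_zpow] at h1
      have hj : Even j := by
        rcases Int.even_or_odd j with hj | hj
        · exact hj
        · exact absurd (hi.add_odd hj) (Int.not_even_iff_odd.2 hij)
      obtain ⟨m, hm⟩ := hj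
      apply hval (-m)
      have e : U 0 + U 1 = 2 * (2 * h * ((-m : ℤ) : ℝ)) := by
        rw [h1, hm]; push_cast; ring
      rw [mem_uIcc]
      rcases le_total (U 0) (U 1) with hle | hle
      · left; constructor <;> linarith
      · right; constructor <;> linarith
  · intro X U hX hU s t hst hs ht _
    obtain ⟨k, hk⟩ := hs
    obtain ⟨k', hk'⟩ := ht
    simp only at hk hk'
    have h1 := flat_dist hh (X s) (X t) k k'
    have h2 := eucl_le hX hU hst.le
    rw [hk, hk'] at h2 ⊢
    refine h1.trans (h2.trans (le_of_eq ?_))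
    unfold speed
    simp

end Pool.Agent.Q146.KB
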