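import Mathlib

/-!
# Two integrals
-/

set_option autoImplicit false

open Set MeasureTheory Filter Topology

namespace Pool.Agent.Q146.KB

theorem cos_pos_Ioo {w : ℝ} (hw : w ∈ Ioo (-(Real.pi / 2)) (Real.pi / 2)) : 0 < Real.cos w :=
  Real.cos_pos_of_mem_Ioo hw

theorem integral_P (a R : ℝ) (ha : 0 < a) :
    ∫ w in (-(Real.pi / 2))..(Real.pi / 2), 1 / (a ^ 2 + R ^ 2 * Real.sin w ^ 2)
      = Real.pi / (a * √(a ^ 2 + R ^ 2)) := by
  set c := √(a ^ 2 + R ^ 2) with hc
  have hc2 : c ^ 2 = a ^ 2 + R ^ 2 := Real.sq_sqrt (by positivity)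
  have hc0 : 0 < c := Real.sqrt_pos.2 (by positivity)
  have hcont : Continuous (fun w : ℝ => 1 / (a ^ 2 + R ^ 2 * Real.sin w ^ 2)) := by
    apply Continuous.div continuous_const (by fun_prop)
    intro w; positivity
  have hk : 0 < c / a := by positivity
  rw [intervalIntegral.integral_eq_sub_of_hasDerivAt_of_tendsto
    (f := fun w => Real.arctan (c / a * Real.tan w) / (a * c))
    (fa := -(Real.pi / 2) / (a * c)) (fb := (Real.pi / 2) / (a * c))]
  · field_simp
    ring
  · linarith [Real.pi_pos]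
  · intro w hw
    have hcw := cos_pos_Ioo hw
    have h1 : HasDerivAt (fun w => c / a * Real.tan w) (c / a * (1 / Real.cos w ^ 2)) w :=
      (Real.hasDerivAt_tan hcw.ne').const_mul _
    have h2 := (h1.arctan).div_const (a * c)
    refine h2.congr_deriv ?_
    rw [Real.tan_eq_sin_div_cos]
    have hsc := Real.sin_sq_add_cos_sq w
    have e1 : a ^ 2 + R ^ 2 * Real.sin w ^ 2 = a ^ 2 * Real.cos w ^ 2 + c ^ 2 * Real.sin w ^ 2 := by
      rw [hc2]; nlinarith [hsc]
    rw [e1]
    have h3 : 0 < a ^ 2 * Real.cos w ^ 2 + c ^ 2 * Real.sin w ^ 2 := by positivity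
    field_simp
  · exact hcont.intervalIntegrable _ _
  · refine Tendsto.div_const ?_ _
    have h1 := Real.tendsto_tan_neg_pi_div_two
    have h2 : Tendsto (fun w => c / a * Real.tan w) (𝓝[>] (-(Real.pi / 2))) atBot :=
      h1.const_mul_atBot hk
    exact (Real.tendsto_arctan_atBot.mono_right nhdsWithin_le_nhds).comp h2
  · refine Tendsto.div_const ?_ _
    have h1 := Real.tendsto_tan_pi_div_two
    have h2 : Tendsto (fun w => c / a * Real.tan w) (𝓝[<] (Real.pi / 2)) atTop :=
      h1.const_mul_atTop hk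
    exact (Real.tendsto_arctan_atTop.mono_right nhdsWithin_le_nhds).comp h2

theorem integral_sphere (T : ℝ) :
    ∫ x in (-Real.pi)..Real.pi, 1 / (1 + T ^ 2 * Real.sin x ^ 2)
      = 2 * Real.pi / √(1 + T ^ 2) := by
  have hP := integral_P 1 T one_pos
  simp only [one_pow, one_mul] at hP
  have hcont : Continuous (fun w : ℝ => 1 / (1 + T ^ 2 * Real.sin w ^ 2)) := by
    apply Continuous.div continuous_const (by fun_prop)
    intro w; positivity
  have hper : Function.Periodic (fun w : ℝ => 1 / (1 + T ^ 2 * Real.sin w ^ 2)) Real.pi := by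
    intro w; simp [Real.sin_add_pi]
  have h1 := hper.intervalIntegral_add_eq (-(Real.pi)) (-(Real.pi / 2))
  have h2 := hper.intervalIntegral_add_eq 0 (-(Real.pi / 2))
  have e1 : -Real.pi + Real.pi = 0 := by ring
  have e2 : -(Real.pi / 2) + Real.pi = Real.pi / 2 := by ring
  have e3 : 0 + Real.pi = Real.pi := by ring
  rw [e1, e2, hP] at h1
  rw [e3, e2, hP] at h2
  rw [← intervalIntegral.integral_add_adjacent_intervals (hcont.intervalIntegrable (-Real.pi) 0)
    (hcont.intervalIntegrable 0 Real.pi), h1, h2]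
  ring

theorem integral_J (a R : ℝ) (ha : 0 < a) (hR : 0 ≤ R) :
    ∫ Z in (-R)..R, √(R ^ 2 - Z ^ 2) / (a ^ 2 + Z ^ 2)
      = Real.pi * (√(a ^ 2 + R ^ 2) / a - 1) := by
  set c := √(a ^ 2 + R ^ 2) with hc
  have hc2 : c ^ 2 = a ^ 2 + R ^ 2 := Real.sq_sqrt (by positivity)
  have hc0 : 0 < c := Real.sqrt_pos.2 (by positivity)
  have hP := integral_P a R ha
  rw [← hc] at hP
  have hg : Continuous (fun Z : ℝ => √(R ^ 2 - Z ^ 2) / (a ^ 2 + Z ^ 2)) := by
    apply Continuous.div (by fun_prop) (by fun_prop)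
    intro w; positivity
  have hsub := intervalIntegral.integral_comp_mul_deriv
    (a := -(Real.pi / 2)) (b := Real.pi / 2) (f := fun w => R * Real.sin w)
    (f' := fun w => R * Real.cos w) (g := fun Z : ℝ => √(R ^ 2 - Z ^ 2) / (a ^ 2 + Z ^ 2))
    (fun w _ => (Real.hasDerivAt_sin w).const_mul R) (by fun_prop) hg
  simp only [Real.sin_neg, Real.sin_pi_div_two, mul_neg, mul_one] at hsub
  rw [← hsub]
  have hcont : Continuous (fun w : ℝ => 1 / (a ^ 2 + R ^ 2 * Real.sin w ^ 2)) := by
    apply Continuous.div continuous_const (by fun_prop)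
    intro w; positivity
  have hcongr : ∫ w in (-(Real.pi / 2))..(Real.pi / 2),
      ((fun Z : ℝ => √(R ^ 2 - Z ^ 2) / (a ^ 2 + Z ^ 2)) ∘ fun w => R * Real.sin w) w
        * (R * Real.cos w) =
      ∫ w in (-(Real.pi / 2))..(Real.pi / 2),
        (c ^ 2 * (1 / (a ^ 2 + R ^ 2 * Real.sin w ^ 2)) - 1) := by
    apply intervalIntegral.integral_congr
    intro w hw
    rw [uIcc_of_le (by linarith [Real.pi_pos])] at hw
    have hcw : 0 ≤ Real.cos w := Real.cos_nonneg_of_mem_Icc hw
    have hsc := Real.sin_sq_add_cos_sq w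
    have e1 : R ^ 2 - (R * Real.sin w) ^ 2 = (R * Real.cos w) ^ 2 := by
      have : Real.cos w ^ 2 = 1 - Real.sin w ^ 2 := by linarith
      rw [mul_pow, mul_pow, this]; ring
    simp only [Function.comp_apply]
    rw [e1, Real.sqrt_sq (by positivity), hc2]
    have h3 : 0 < a ^ 2 + R ^ 2 * Real.sin w ^ 2 := by positivity
    have h4 : Real.cos w ^ 2 = 1 - Real.sin w ^ 2 := by linarith
    rw [mul_pow]
    field_simp
    rw [h4]; ring
  rw [hcongr, intervalIntegral.integral_sub ((hcont.const_mul _).intervalIntegrable _ _)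
    (by simp), intervalIntegral.integral_const_mul, hP]
  simp only [intervalIntegral.integral_const, smul_eq_mul]
  field_simp
  ring

end Pool.Agent.Q146.KB
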