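import Pool.Agent.Q146.KB.Means

/-!
# The area of a Klein bottle whose odd loops have length at least `π`
-/

set_option autoImplicit false

open Set MeasureTheory Filter Topology

namespace Pool.Agent.Q146.KB

theorem int_sech (b : ℝ) : ∫ u in (-b)..b, 1 / Real.cosh u = 2 * Real.arctan (Real.sinh b) := by
  have h1 : ∀ u ∈ uIcc (-b) b, HasDerivAt (fun u => Real.arctan (Real.sinh u)) (1 / Real.cosh u) u := by
    intro u _
    have h2 := (Real.hasDerivAt_sinh u).arctan
    refine h2.congr_deriv ?_
    have h3 := Real.cosh_sq u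
    have h4 := Real.cosh_pos u
    rw [show 1 + Real.sinh u ^ 2 = Real.cosh u ^ 2 by rw [h3]; ring]
    field_simp
  rw [intervalIntegral.integral_eq_sub_of_hasDerivAt h1]
  · rw [Real.sinh_neg, Real.arctan_neg]; ring
  · apply Continuous.intervalIntegrable
    exact continuous_const.div Real.continuous_cosh (fun u => (Real.cosh_pos u).ne')

theorem int_sech_sq (b : ℝ) : ∫ u in (-b)..b, 1 / Real.cosh u ^ 2 =
    2 * (Real.sinh b / Real.cosh b) := by
  have h1 : ∀ u ∈ uIcc (-b) b, HasDerivAt (fun u => Real.sinh u / Real.cosh u)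
      (1 / Real.cosh u ^ 2) u := by
    intro u _
    have h2 := (Real.hasDerivAt_sinh u).div (Real.hasDerivAt_cosh u) (Real.cosh_pos u).ne'
    refine h2.congr_deriv ?_
    have h3 := Real.cosh_sq u
    have h4 := Real.cosh_pos u
    rw [show Real.cosh u * Real.cosh u - Real.sinh u * Real.sinh u = 1 by nlinarith]
  rw [intervalIntegral.integral_eq_sub_of_hasDerivAt h1]
  · rw [Real.sinh_neg, Real.cosh_neg]; ring
  · apply Continuous.intervalIntegrable
    exact continuous_const.div (by fun_prop) (fun u => (pow_pos (Real.cosh_pos u) 2).ne')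

theorem sqrt_sinh (u : ℝ) : √(1 + Real.sinh u ^ 2) = Real.cosh u := by
  have h3 := Real.cosh_sq u
  rw [show 1 + Real.sinh u ^ 2 = Real.cosh u ^ 2 by rw [h3]; ring,
    Real.sqrt_sq (Real.cosh_pos u).le]

section
variable {h : ℝ} {f : ℝ → ℝ → ℝ} (hf : ConformalFactor h f)
include hf

/-- the inequality from great circles, in the variable `u` -/
theorem star_u (b : ℝ) (hb : 0 ≤ b)
    (H : ∀ T ∈ Ioo 0 (Real.sinh b), ∀ c : ℝ, Real.pi ≤ length f (fun t => Real.pi * t + c)
      (fun t => Real.arsinh (T * Real.sin (Real.pi * t)))) :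
    0 ≤ ∫ u in (-b)..b, (fb f u - 2 * Real.pi / Real.cosh u) *
      (1 / Real.cosh u - 1 / Real.cosh b) := by
  set ψ : ℝ → ℝ := fun y => fb f (Real.arsinh y) - 2 * Real.pi / √(1 + y ^ 2) with hψdef
  have hψc : Continuous ψ := by
    apply Continuous.sub ((fb_cont hf).comp Real.continuous_arsinh)
    apply continuous_const.div (by fun_prop)
    intro y; positivity
  have hψe : ∀ y, ψ (-y) = ψ y := by
    intro y
    simp only [hψdef]
    rw [Real.arsinh_neg, fb_even hf, neg_sq]
  have hT0 : 0 ≤ Real.sinh b := Real.sinh_nonneg_iff.2 hb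
  have hstar := star hψc hT0 (by
    intro T hT
    have hgc : Continuous (fun x : ℝ => ψ (T * Real.sin x) / √(1 + (T * Real.sin x) ^ 2)) := by
      apply Continuous.div (hψc.comp (by fun_prop)) (by fun_prop)
      intro p; positivity
    have hper : Function.Periodic (fun x : ℝ => ψ (T * Real.sin x) / √(1 + (T * Real.sin x) ^ 2))
        Real.pi := by
      intro x
      simp only [Real.sin_add_pi, mul_neg, hψe, neg_sq]
    have h1 := hper.intervalIntegral_add_eq (-Real.pi) 0
    rw [neg_add_cancel, zero_add] at h1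
    rw [← intervalIntegral.integral_add_adjacent_intervals (hgc.intervalIntegrable (-Real.pi) 0)
      (hgc.intervalIntegrable 0 Real.pi), h1]
    have h2 := great hf T (H T hT)
    have hs := integral_sphere T
    have hcs : Continuous (fun w : ℝ => 1 / (1 + T ^ 2 * Real.sin w ^ 2)) := by
      apply Continuous.div continuous_const (by fun_prop)
      intro w; positivity
    have hpers : Function.Periodic (fun w : ℝ => 1 / (1 + T ^ 2 * Real.sin w ^ 2)) Real.pi := by
      intro w; simp [Real.sin_add_pi]
    have h3 := hpers.intervalIntegral_add_eq (-Real.pi) 0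
    rw [neg_add_cancel, zero_add] at h3
    rw [← intervalIntegral.integral_add_adjacent_intervals (hcs.intervalIntegrable (-Real.pi) 0)
      (hcs.intervalIntegrable 0 Real.pi), h3] at hs
    have h4 : ∫ x in (0 : ℝ)..Real.pi, ψ (T * Real.sin x) / √(1 + (T * Real.sin x) ^ 2) =
        (∫ x in (0 : ℝ)..Real.pi, fb f (Real.arsinh (T * Real.sin x)) /
          √(1 + (T * Real.sin x) ^ 2)) -
        2 * Real.pi * ∫ x in (0 : ℝ)..Real.pi, 1 / (1 + T ^ 2 * Real.sin x ^ 2) := by
      rw [← intervalIntegral.integral_const_mul, ← intervalIntegral.integral_sub]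
      · congr 1
        ext x
        simp only [hψdef]
        have hs0 : 0 < √(1 + (T * Real.sin x) ^ 2) := Real.sqrt_pos.2 (by positivity)
        have hs2 : √(1 + (T * Real.sin x) ^ 2) * √(1 + (T * Real.sin x) ^ 2) =
          1 + T ^ 2 * Real.sin x ^ 2 := by
          rw [Real.mul_self_sqrt (by positivity)]; ring
        rw [← hs2]
        field_simp
      · apply Continuous.intervalIntegrable
        apply Continuous.div ((fb_cont hf).comp (Real.continuous_arsinh.comp (by fun_prop)))
          (by fun_prop)
        intro p; positivity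
      · exact (hcs.const_mul _).intervalIntegrable _ _
    have h5 : ∫ x in (0 : ℝ)..Real.pi, 1 / (1 + T ^ 2 * Real.sin x ^ 2) =
        Real.pi / √(1 + T ^ 2) := by
      have : 2 * Real.pi / √(1 + T ^ 2) = Real.pi / √(1 + T ^ 2) + Real.pi / √(1 + T ^ 2) := by ring
      linarith
    rw [h4, h5]
    have h6 : 2 * Real.pi * (Real.pi / √(1 + T ^ 2)) = 2 * Real.pi ^ 2 / √(1 + T ^ 2) := by ring
    rw [h6]
    linarith)
  -- change of variables `Y = sinh u`
  have hgY : Continuous (fun Y : ℝ => ψ Y / √(1 + Y ^ 2) *
      (√(1 + Real.sinh b ^ 2) / √(1 + Y ^ 2) - 1)) := by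
    apply Continuous.mul
    · apply Continuous.div hψc (by fun_prop)
      intro p; positivity
    · apply Continuous.sub _ continuous_const
      apply Continuous.div continuous_const (by fun_prop)
      intro p; positivity
  have hsub := intervalIntegral.integral_comp_mul_deriv
    (a := -b) (b := b) (f := Real.sinh) (f' := Real.cosh)
    (g := fun Y : ℝ => ψ Y / √(1 + Y ^ 2) * (√(1 + Real.sinh b ^ 2) / √(1 + Y ^ 2) - 1))
    (fun w _ => Real.hasDerivAt_sinh w) Real.continuous_cosh.continuousOn hgY
  rw [Real.sinh_neg] at hsub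
  rw [← hsub] at hstar
  have hcb := Real.cosh_pos b
  have h7 : ∫ x in (-b)..b, ((fun Y : ℝ => ψ Y / √(1 + Y ^ 2) *
      (√(1 + Real.sinh b ^ 2) / √(1 + Y ^ 2) - 1)) ∘ Real.sinh) x * Real.cosh x =
      Real.cosh b * ∫ u in (-b)..b, (fb f u - 2 * Real.pi / Real.cosh u) *
      (1 / Real.cosh u - 1 / Real.cosh b) := by
    rw [← intervalIntegral.integral_const_mul]
    congr 1
    ext u
    simp only [Function.comp_apply, hψdef, sqrt_sinh, Real.arsinh_sinh]
    have hcu := Real.cosh_pos u
    field_simp
  rw [h7] at hstar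
  exact nonneg_of_mul_nonneg_right hstar hcb

theorem q_cont : Continuous (fun u => ∫ x in (0 : ℝ)..(2 * Real.pi), f x u ^ 2) := by
  have h1 : Continuous (fun p : ℝ × ℝ => f p.2 p.1) :=
    hf.cont.comp (continuous_snd.prodMk continuous_fst)
  have h2 : Continuous (Function.uncurry fun u x => f x u ^ 2) := (continuous_pow 2).comp h1
  exact intervalIntegral.continuous_parametric_intervalIntegral_of_continuous' h2 _ _

/-- the integral of `f²` over a rotation orbit -/
theorem q_ge (c u : ℝ) : 2 * c * fb f u - 2 * Real.pi * c ^ 2 ≤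
    ∫ x in (0 : ℝ)..(2 * Real.pi), f x u ^ 2 := by
  have hcf : Continuous (fun x => f x u) := hf.cont_comp continuous_id continuous_const
  have h1 : ∫ x in (0 : ℝ)..(2 * Real.pi), (2 * c * f x u - c ^ 2) =
      2 * c * fb f u - 2 * Real.pi * c ^ 2 := by
    rw [intervalIntegral.integral_sub ((hcf.const_mul _).intervalIntegrable _ _) (by simp),
      intervalIntegral.integral_const_mul]
    simp only [intervalIntegral.integral_const, smul_eq_mul, sub_zero]
    rfl
  rw [← h1]
  apply intervalIntegral.integral_mono_on (by positivity)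
  · exact ((hcf.const_mul _).sub continuous_const).intervalIntegrable _ _
  · exact (hcf.pow 2).intervalIntegrable _ _
  · intro x _
    nlinarith [sq_nonneg (f x u - c)]

theorem area_eq : 2 * area h f =
    ∫ u in (-h)..h, ∫ x in (0 : ℝ)..(2 * Real.pi), f x u ^ 2 := by
  have hc2 : Continuous (fun p : ℝ × ℝ => f p.1 p.2 ^ 2) := hf.cont.pow 2
  rw [← swap_int (fun x u => f x u ^ 2) hc2]
  have hGc : Continuous (fun x => ∫ u in (-h)..h, f x u ^ 2) :=
    intervalIntegral.continuous_parametric_intervalIntegral_of_continuous' hc2 _ _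
  have hper : Function.Periodic (fun x => ∫ u in (-h)..h, f x u ^ 2) Real.pi := by
    intro x
    simp only
    have h1 : ∀ u, f (x + Real.pi) u = f x (-u) := by
      intro u
      have := hf.glide x (-u)
      rwa [neg_neg] at this
    simp only [h1]
    rw [intervalIntegral.integral_comp_neg (fun u => f x u ^ 2), neg_neg]
  have h1 := hper.intervalIntegral_add_eq Real.pi 0
  rw [zero_add, ← two_mul] at h1
  rw [← intervalIntegral.integral_add_adjacent_intervals (hGc.intervalIntegrable 0 Real.pi)
    (hGc.intervalIntegrable Real.pi (2 * Real.pi)), h1]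
  unfold area
  ring

/-- the bound when the Klein bottle is short in the direction `u` -/
theorem bound_short (Hv : ∀ c : ℝ, Real.pi ≤ ∫ u in (-h)..h, f c u) (h0 : 0 < h) :
    Real.pi ^ 3 / (2 * h) ≤ area h f := by
  have h1 := area_eq hf
  have hv := vertical hf Hv
  have hqc := q_cont hf
  have h2 : ∫ u in (-h)..h, (2 * (Real.pi / (2 * h)) * fb f u -
      2 * Real.pi * (Real.pi / (2 * h)) ^ 2) ≤
      ∫ u in (-h)..h, ∫ x in (0 : ℝ)..(2 * Real.pi), f x u ^ 2 := by
    apply intervalIntegral.integral_mono_on (by linarith)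
    · exact (((fb_cont hf).const_mul _).sub continuous_const).intervalIntegrable _ _
    · exact hqc.intervalIntegrable _ _
    · intro u _
      exact q_ge hf _ u
  rw [intervalIntegral.integral_sub (((fb_cont hf).const_mul _).intervalIntegrable _ _) (by simp),
    intervalIntegral.integral_const_mul] at h2
  simp only [intervalIntegral.integral_const, smul_eq_mul] at h2
  have h3 : 2 * (Real.pi / (2 * h)) * (2 * Real.pi ^ 2) ≤
      2 * (Real.pi / (2 * h)) * ∫ u in (-h)..h, fb f u := by
    apply mul_le_mul_of_nonneg_left hv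
    have := Real.pi_pos
    positivity
  have h4 : 2 * (Real.pi / (2 * h)) * (2 * Real.pi ^ 2) -
      (h - -h) * (2 * Real.pi * (Real.pi / (2 * h)) ^ 2) = 2 * (Real.pi ^ 3 / (2 * h)) := by
    field_simp
    ring
  linarith

/-- the bound in a conformal class -/
theorem bound_long (Hv : ∀ c : ℝ, Real.pi ≤ ∫ u in (-h)..h, f c u)
    (Hg : ∀ T ∈ Ioo 0 (Real.sinh h), ∀ c : ℝ, Real.pi ≤ length f (fun t => Real.pi * t + c)
      (fun t => Real.arsinh (T * Real.sin (Real.pi * t)))) (b : ℝ)
    (hb : 0 ≤ b) (hbh : b ≤ h)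
    (he : Real.arctan (Real.sinh b) + (h - b) / Real.cosh b = Real.pi / 2) :
    2 * Real.pi * (Real.sinh b / Real.cosh b +
      (Real.pi / 2 - Real.arctan (Real.sinh b)) / Real.cosh b) ≤ area h f := by
  have h1 := area_eq hf
  have hv := vertical hf Hv
  have hs := star_u hf b hb (fun T hT => Hg T ⟨hT.1, lt_of_lt_of_le hT.2
    (Real.sinh_le_sinh.2 hbh)⟩)
  have hcb := Real.cosh_pos b
  have hfc := fb_cont hf
  set v := 1 / Real.cosh b with hvdef
  have hv0 : 0 < v := by positivity
  set q : ℝ → ℝ := fun u => ∫ x in (0 : ℝ)..(2 * Real.pi), f x u ^ 2 with hq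
  have hqc : Continuous q := q_cont hf
  have hsc : Continuous (fun u : ℝ => 1 / Real.cosh u) :=
    continuous_const.div Real.continuous_cosh (fun u => (Real.cosh_pos u).ne')
  have hsc2 : Continuous (fun u : ℝ => 1 / Real.cosh u ^ 2) :=
    continuous_const.div (by fun_prop) (fun u => (pow_pos (Real.cosh_pos u) 2).ne')
  have hsf : Continuous (fun u : ℝ => 1 / Real.cosh u * fb f u) := hsc.mul hfc
  -- outer pieces
  have o1 : ∀ a c : ℝ, a ≤ c → 2 * v * (∫ u in a..c, fb f u) - (c - a) * (2 * Real.pi * v ^ 2) ≤
      ∫ u in a..c, q u := by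
    intro a c hac
    have h2 : ∫ u in a..c, (2 * v * fb f u - 2 * Real.pi * v ^ 2) ≤ ∫ u in a..c, q u := by
      apply intervalIntegral.integral_mono_on hac
      · exact ((hfc.const_mul _).sub continuous_const).intervalIntegrable _ _
      · exact hqc.intervalIntegrable _ _
      · intro u _
        exact q_ge hf _ u
    rw [intervalIntegral.integral_sub ((hfc.const_mul _).intervalIntegrable _ _) (by simp),
      intervalIntegral.integral_const_mul] at h2
    simpa only [intervalIntegral.integral_const, smul_eq_mul] using h2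
  -- inner piece
  have i1 : 2 * (∫ u in (-b)..b, 1 / Real.cosh u * fb f u) -
      2 * Real.pi * (∫ u in (-b)..b, 1 / Real.cosh u ^ 2) ≤ ∫ u in (-b)..b, q u := by
    have h2 : ∫ u in (-b)..b, (2 * (1 / Real.cosh u * fb f u) -
        2 * Real.pi * (1 / Real.cosh u ^ 2)) ≤ ∫ u in (-b)..b, q u := by
      apply intervalIntegral.integral_mono_on (by linarith)
      · exact ((hsf.const_mul _).sub (hsc2.const_mul _)).intervalIntegrable _ _
      · exact hqc.intervalIntegrable _ _
      · intro u _
        have := q_ge hf (1 / Real.cosh u) u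
        calc 2 * (1 / Real.cosh u * fb f u) - 2 * Real.pi * (1 / Real.cosh u ^ 2)
            = 2 * (1 / Real.cosh u) * fb f u - 2 * Real.pi * (1 / Real.cosh u) ^ 2 := by ring
          _ ≤ _ := this
    rwa [intervalIntegral.integral_sub ((hsf.const_mul _).intervalIntegrable _ _)
      ((hsc2.const_mul _).intervalIntegrable _ _), intervalIntegral.integral_const_mul,
      intervalIntegral.integral_const_mul] at h2
  -- expand star
  have s1 : (∫ u in (-b)..b, (fb f u - 2 * Real.pi / Real.cosh u) * (1 / Real.cosh u - v)) =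
      (∫ u in (-b)..b, 1 / Real.cosh u * fb f u) - v * (∫ u in (-b)..b, fb f u) -
      2 * Real.pi * (∫ u in (-b)..b, 1 / Real.cosh u ^ 2) +
      2 * Real.pi * v * (∫ u in (-b)..b, 1 / Real.cosh u) := by
    rw [← intervalIntegral.integral_const_mul, ← intervalIntegral.integral_const_mul,
      ← intervalIntegral.integral_const_mul, ← intervalIntegral.integral_sub,
      ← intervalIntegral.integral_sub, ← intervalIntegral.integral_add]
    · congr 1
      ext u
      ring
    · exact ((hsf.sub (hfc.const_mul _)).sub (hsc2.const_mul _)).intervalIntegrable _ _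
    · exact (hsc.const_mul _).intervalIntegrable _ _
    · exact (hsf.sub (hfc.const_mul _)).intervalIntegrable _ _
    · exact (hsc2.const_mul _).intervalIntegrable _ _
    · exact hsf.intervalIntegrable _ _
    · exact (hfc.const_mul _).intervalIntegrable _ _
  rw [s1, int_sech, int_sech_sq] at hs
  rw [int_sech_sq] at i1
  -- splitting
  have sp : ∀ g : ℝ → ℝ, Continuous g → ∫ u in (-h)..h, g u =
      (∫ u in (-h)..(-b), g u) + (∫ u in (-b)..b, g u) + ∫ u in b..h, g u := by
    intro g hg
    rw [intervalIntegral.integral_add_adjacent_intervals (hg.intervalIntegrable _ _)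
      (hg.intervalIntegrable _ _), intervalIntegral.integral_add_adjacent_intervals
      (hg.intervalIntegrable _ _) (hg.intervalIntegrable _ _)]
  have sq := sp q hqc
  have sf := sp (fb f) hfc
  have a1 := o1 (-h) (-b) (by linarith)
  have a2 := o1 b h hbh
  have he' : v * (h - b) = Real.pi / 2 - Real.arctan (Real.sinh b) := by
    rw [hvdef]
    have : 1 / Real.cosh b * (h - b) = (h - b) / Real.cosh b := by ring
    rw [this]; linarith
  have e3 : 2 * Real.pi * (Real.sinh b / Real.cosh b +
      (Real.pi / 2 - Real.arctan (Real.sinh b)) / Real.cosh b) =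
      2 * Real.pi * (Real.sinh b / Real.cosh b) +
      2 * Real.pi * (v * (Real.pi / 2 - Real.arctan (Real.sinh b))) := by
    rw [hvdef]; ring
  rw [e3]
  set A := Real.sinh b / Real.cosh b
  set g := Real.arctan (Real.sinh b)
  have e4 : (-b - -h) * (2 * Real.pi * v ^ 2) = 2 * Real.pi * (v * (Real.pi / 2 - g)) := by
    rw [← he']; ring
  have e5 : (h - b) * (2 * Real.pi * v ^ 2) = 2 * Real.pi * (v * (Real.pi / 2 - g)) := by
    rw [← he']; ring
  rw [e4] at a1
  rw [e5] at a2
  have hv2 : v * (2 * Real.pi ^ 2) ≤ v * ∫ u in (-h)..h, fb f u :=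
    mul_le_mul_of_nonneg_left hv hv0.le
  rw [sf] at hv2
  have h1' : 2 * area h f = ∫ u in (-h)..h, q u := h1
  rw [sq] at h1'
  nlinarith [hv2, hs, i1, a1, a2, h1']

/-- the area is more than `2 π` -/
theorem area_gt (Hv : ∀ c : ℝ, Real.pi ≤ ∫ u in (-h)..h, f c u)
    (Hg : ∀ T ∈ Ioo 0 (Real.sinh h), ∀ c : ℝ, Real.pi ≤ length f (fun t => Real.pi * t + c)
      (fun t => Real.arsinh (T * Real.sin (Real.pi * t)))) (h0 : 0 < h) :
    2 * Real.pi < area h f := by
  have hpi := Real.pi_pos
  have hpi3 := Real.pi_gt_three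
  rcases le_total h (Real.pi / 2) with hh | hh
  · have h1 := bound_short hf Hv h0
    have h2 : Real.pi ^ 2 ≤ Real.pi ^ 3 / (2 * h) := by
      rw [le_div_iff₀ (by positivity)]
      nlinarith [sq_nonneg Real.pi]
    nlinarith
  · have hcont : ContinuousOn (fun b : ℝ => Real.arctan (Real.sinh b) + (h - b) / Real.cosh b)
        (Icc 0 h) := by
      apply Continuous.continuousOn
      apply Continuous.add (Real.continuous_arctan.comp Real.continuous_sinh)
      exact Continuous.div (by fun_prop) Real.continuous_cosh (fun u => (Real.cosh_pos u).ne')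
    have hiv := intermediate_value_Icc' h0.le hcont
    have hmem : Real.pi / 2 ∈ Icc ((fun b : ℝ => Real.arctan (Real.sinh b) +
        (h - b) / Real.cosh b) h) ((fun b : ℝ => Real.arctan (Real.sinh b) +
        (h - b) / Real.cosh b) 0) := by
      constructor
      · simp only [sub_self, zero_div, add_zero]
        exact (Real.arctan_lt_pi_div_two _).le
      · simp
        exact hh
    obtain ⟨b, hb, he⟩ := hiv hmem
    have h1 := bound_long hf Hv Hg b hb.1 hb.2 he
    refine lt_of_lt_of_le ?_ h1
    set g := Real.arctan (Real.sinh b) with hg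
    have hcos : Real.cos g = 1 / Real.cosh b := by
      rw [hg, Real.cos_arctan, sqrt_sinh]
    have hsin : Real.sin g = Real.sinh b / Real.cosh b := by
      rw [hg, Real.sin_arctan, sqrt_sinh]
    have hg0 : 0 ≤ g := Real.arctan_nonneg.2 (Real.sinh_nonneg_iff.2 hb.1)
    have hg1 : g < Real.pi / 2 := Real.arctan_lt_pi_div_two _
    set r := Real.pi / 2 - g with hr
    have hr0 : 0 < r := by linarith
    have hr1 : r ≤ Real.pi / 2 := by linarith
    have hcr : Real.cos r = Real.sinh b / Real.cosh b := by
      rw [hr, Real.cos_pi_div_two_sub, hsin]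
    have hsr : Real.sin r = 1 / Real.cosh b := by
      rw [hr, Real.sin_pi_div_two_sub, hcos]
    have e : r / Real.cosh b = r * Real.sin r := by rw [hsr]; ring
    rw [e, ← hcr]
    have c1 := Real.one_sub_sq_div_two_le_cos (x := r)
    have c2 := Real.mul_le_sin hr0.le hr1
    have c3 : 1 / 2 < 2 / Real.pi := by
      rw [div_lt_div_iff₀ (by norm_num) hpi]
      have := Real.pi_lt_four
      linarith
    have c4 : 1 / 2 * r < Real.sin r := lt_of_lt_of_le (by nlinarith) c2
    have c5 : r ^ 2 / 2 < r * Real.sin r := by nlinarith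
    nlinarith

/-- the two families in a Klein bottle with long odd loops -/
theorem hv_of_odd (h0 : 0 < h) (H : ∀ X U, OddLoop h X U → Real.pi ≤ length f X U) (c : ℝ) :
    Real.pi ≤ ∫ u in (-h)..h, f c u := by
  have := H _ _ (oddLoop_vertical h (-h) c)
  rw [length_vertical f h0] at this
  rwa [show 2 * h + -h = h by ring] at this

/-- the two families in a Möbius band filling the circle -/
theorem hv_of_fills (h0 : 0 < h) (H : FillsCircle h f) (c : ℝ) :
    Real.pi ≤ ∫ u in (-h)..h, f c u := by
  obtain ⟨k, hk⟩ := H.across (fun _ => c) (fun t => 2 * h * t + 0) (by fun_prop) (by fun_prop)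
    (by
      intro t ht
      constructor
      · have := ht.1; positivity
      · nlinarith [ht.2]) (by simp) (by simp)
  have h1 := arc_antipodal hf H.boundary c k
  rw [length_vertical f h0] at hk
  have hper : Function.Periodic (fun u => f c u) (2 * h) := fun u => hf.trans c u
  have h2 := hper.intervalIntegral_add_eq (-h) 0
  rw [show -h + 2 * h = h by ring] at h2
  rw [add_zero] at hk
  rw [h2, zero_add]
  exact h1.trans hk

theorem hg_of_fills (H : FillsCircle h f) (T : ℝ)
    (hT : T ∈ Ioo 0 (Real.sinh h)) (c : ℝ) :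
    Real.pi ≤ length f (fun t => Real.pi * t + c)
      (fun t => Real.arsinh (T * Real.sin (Real.pi * t))) := by
  have h0 : 0 < h := Real.sinh_pos_iff.1 (hT.1.trans hT.2)
  obtain ⟨k, hk⟩ := H.same (fun t => Real.pi * t + c)
    (fun t => Real.arsinh (T * Real.sin (Real.pi * t))) (by fun_prop)
    (by apply Real.contDiff_arsinh.comp; fun_prop)
    (by
      intro t ht
      have hs : 0 ≤ Real.sin (Real.pi * t) := by
        apply Real.sin_nonneg_of_nonneg_of_le_pi
        · have := ht.1; positivity
        · nlinarith [ht.2, Real.pi_pos]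
      have hs1 := Real.sin_le_one (Real.pi * t)
      constructor
      · exact Real.arsinh_nonneg_iff.2 (mul_nonneg hT.1.le hs)
      · have h3 : Real.arsinh (T * Real.sin (Real.pi * t)) ≤ Real.arsinh (Real.sinh h) := by
          apply Real.arsinh_le_arsinh.2
          nlinarith [hT.1, hT.2]
        rw [Real.arsinh_sinh] at h3
        linarith) (by simp) (by simp)
  have h1 := arc_antipodal hf H.boundary c k
  refine h1.trans (le_trans (le_of_eq ?_) hk)
  simp only [mul_zero, zero_add, mul_one]
  rw [show Real.pi + c = c + Real.pi by ring]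

end

end Pool.Agent.Q146.KB
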