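import Pool.Agent.Q146.KB.Polar

/-!
# Metrics on Klein bottles in isothermal coordinates, odd loops, and means over rotations
-/

set_option autoImplicit false

open Set MeasureTheory Filter Topology

namespace Pool.Agent.Q146.KB

/-- `f` is the conformal factor of a metric `f² (dx² + du²)` on the Klein bottle
`K_h = ℝ² / Γ_h`, where `Γ_h` is generated by `(x, u) ↦ (x + π, -u)` and `(x, u) ↦ (x, u + 2 h)`:
a positive continuous function on the plane invariant under `Γ_h`. -/
structure ConformalFactor (h : ℝ) (f : ℝ → ℝ → ℝ) : Prop where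
  cont : Continuous (fun p : ℝ × ℝ => f p.1 p.2)
  pos : ∀ x u, 0 < f x u
  glide : ∀ x u, f (x + Real.pi) (-u) = f x u
  trans : ∀ x u, f x (u + 2 * h) = f x u

/-- `(X, U)` is the lift to the plane of a smooth closed curve of `K_h` (parameter `t` mod 1) in the
class of `(x, u) ↦ (x + i π, (-1)^i (u + 2 h j))` with `i + j` odd. -/
structure OddLoop (h : ℝ) (X U : ℝ → ℝ) : Prop where
  smoothX : ContDiff ℝ (⊤ : ℕ∞) X
  smoothU : ContDiff ℝ (⊤ : ℕ∞) U
  closes : ∃ i j : ℤ, Odd (i + j) ∧ ∀ t, X (t + 1) = X t + i * Real.pi ∧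
    U (t + 1) = (-1) ^ i * (U t + 2 * h * j)

/-- the length of the curve for the metric `f² (dx² + du²)` -/
noncomputable def length (f : ℝ → ℝ → ℝ) (X U : ℝ → ℝ) : ℝ :=
  ∫ t in (0 : ℝ)..1, f (X t) (U t) * √(deriv X t ^ 2 + deriv U t ^ 2)

/-- the area of `K_h` for the metric `f² (dx² + du²)`: the integral of `f²` over the fundamental
domain `[0, π] × [-h, h]` -/
noncomputable def area (h : ℝ) (f : ℝ → ℝ → ℝ) : ℝ :=
  ∫ x in (0 : ℝ)..Real.pi, ∫ u in (-h)..h, f x u ^ 2

/-- integral over the rotations -/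
noncomputable def fb (f : ℝ → ℝ → ℝ) (u : ℝ) : ℝ := ∫ x in (0 : ℝ)..(2 * Real.pi), f x u

theorem swap_int (F : ℝ → ℝ → ℝ) (hF : Continuous (fun p : ℝ × ℝ => F p.1 p.2)) (a b c d : ℝ) :
    ∫ x in a..b, ∫ y in c..d, F x y = ∫ y in c..d, ∫ x in a..b, F x y := by
  apply intervalIntegral_intervalIntegral_swap
  have h1 : IntegrableOn (fun p : ℝ × ℝ => F p.1 p.2) (uIcc a b ×ˢ uIcc c d)
      (volume.prod volume) :=
    hF.continuousOn.integrableOn_compact (isCompact_uIcc.prod isCompact_uIcc)
  have h2 : IntegrableOn (fun p : ℝ × ℝ => F p.1 p.2) (uIoc a b ×ˢ uIoc c d)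
      (volume.prod volume) :=
    h1.mono_set (prod_mono uIoc_subset_uIcc uIoc_subset_uIcc)
  exact h2

section
variable {h : ℝ} {f : ℝ → ℝ → ℝ} (hf : ConformalFactor h f)
include hf

theorem ConformalFactor.per (x u : ℝ) : f (x + 2 * Real.pi) u = f x u := by
  have h1 := hf.glide (x + Real.pi) (-u)
  have h2 := hf.glide x u
  rw [neg_neg] at h1
  rw [show x + 2 * Real.pi = x + Real.pi + Real.pi by ring, h1, h2]

theorem ConformalFactor.cont_comp {g k : ℝ → ℝ} (hg : Continuous g) (hk : Continuous k) :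
    Continuous (fun t => f (g t) (k t)) :=
  hf.cont.comp (hg.prodMk hk)

theorem fb_cont : Continuous (fb f) := by
  unfold fb
  apply intervalIntegral.continuous_parametric_intervalIntegral_of_continuous'
    (f := fun u x => f x u)
  exact hf.cont.comp (continuous_snd.prodMk continuous_fst)

theorem fb_even (u : ℝ) : fb f (-u) = fb f u := by
  unfold fb
  have h1 : ∀ x, f x (-u) = f (x - Real.pi) u := by
    intro x
    have := hf.glide (x - Real.pi) u
    rwa [sub_add_cancel] at this
  simp only [h1]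
  rw [intervalIntegral.integral_comp_sub_right (fun x => f x u)]
  have hp : Function.Periodic (fun x => f x u) (2 * Real.pi) := fun x => hf.per x u
  have := hp.intervalIntegral_add_eq (0 - Real.pi) 0
  rw [show (0 - Real.pi + 2 * Real.pi : ℝ) = 2 * Real.pi - Real.pi by ring, zero_add] at this
  exact this

theorem fb_shift (c u : ℝ) : ∫ x in (0 : ℝ)..(2 * Real.pi), f (c + x) u = fb f u := by
  unfold fb
  rw [intervalIntegral.integral_comp_add_left (fun x => f x u)]
  have hp : Function.Periodic (fun x => f x u) (2 * Real.pi) := fun x => hf.per x u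
  have := hp.intervalIntegral_add_eq c 0
  rw [zero_add] at this
  rw [add_zero]
  exact this

/-- great circles -/
theorem great (T : ℝ) (H : ∀ c : ℝ, Real.pi ≤ length f (fun t => Real.pi * t + c)
    (fun t => Real.arsinh (T * Real.sin (Real.pi * t)))) :
    2 * Real.pi ^ 2 / √(1 + T ^ 2) ≤
      ∫ x in (0 : ℝ)..Real.pi, fb f (Real.arsinh (T * Real.sin x)) /
        √(1 + (T * Real.sin x) ^ 2) := by
  have hT0 : 0 < √(1 + T ^ 2) := Real.sqrt_pos.2 (by positivity)
  -- one great circle
  have h1 : ∀ c : ℝ, Real.pi / √(1 + T ^ 2) ≤ ∫ x in (0 : ℝ)..Real.pi,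
      f (x + c) (Real.arsinh (T * Real.sin x)) / √(1 + (T * Real.sin x) ^ 2) := by
    intro c
    have hU : ∀ t, HasDerivAt (fun t => Real.arsinh (T * Real.sin (Real.pi * t)))
        ((√(1 + (T * Real.sin (Real.pi * t)) ^ 2))⁻¹ • (T * (Real.cos (Real.pi * t) * Real.pi))) t := by
      intro t
      apply HasDerivAt.arsinh
      apply HasDerivAt.const_mul
      have := ((hasDerivAt_id t).const_mul Real.pi).sin
      simpa using this
    have hX : ∀ t, HasDerivAt (fun t => Real.pi * t + c) Real.pi t := by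
      intro t
      have := ((hasDerivAt_id t).const_mul Real.pi).add_const c
      simpa using this
    have h2 := H c
    unfold length at h2
    have h3 : ∀ t : ℝ, f (Real.pi * t + c) (Real.arsinh (T * Real.sin (Real.pi * t))) *
        √(deriv (fun t => Real.pi * t + c) t ^ 2 +
          deriv (fun t => Real.arsinh (T * Real.sin (Real.pi * t))) t ^ 2) =
        (fun x => √(1 + T ^ 2) * (f (x + c) (Real.arsinh (T * Real.sin x)) /
          √(1 + (T * Real.sin x) ^ 2))) (Real.pi * t) * Real.pi := by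
      intro t
      rw [(hX t).deriv, (hU t).deriv]
      simp only [smul_eq_mul]
      have hs0 : 0 < √(1 + (T * Real.sin (Real.pi * t)) ^ 2) := Real.sqrt_pos.2 (by positivity)
      have hs2 : √(1 + (T * Real.sin (Real.pi * t)) ^ 2) ^ 2 = 1 + (T * Real.sin (Real.pi * t)) ^ 2 :=
        Real.sq_sqrt (by positivity)
      have hT2 : √(1 + T ^ 2) ^ 2 = 1 + T ^ 2 := Real.sq_sqrt (by positivity)
      have hsc := Real.sin_sq_add_cos_sq (Real.pi * t)
      have e : Real.pi ^ 2 + ((√(1 + (T * Real.sin (Real.pi * t)) ^ 2))⁻¹ *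
          (T * (Real.cos (Real.pi * t) * Real.pi))) ^ 2 =
          (√(1 + T ^ 2) / √(1 + (T * Real.sin (Real.pi * t)) ^ 2) * Real.pi) ^ 2 := by
        rw [mul_pow, mul_pow (√(1 + T ^ 2) / _), div_pow, hT2, inv_pow, hs2]
        have hne : (1 + (T * Real.sin (Real.pi * t)) ^ 2) ≠ 0 := by positivity
        field_simp
        have hcc : Real.cos (Real.pi * t) ^ 2 = 1 - Real.sin (Real.pi * t) ^ 2 := by linarith
        rw [hcc]; ring
      rw [e, Real.sqrt_sq (by positivity)]
      ring
    simp only [h3] at h2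
    rw [intervalIntegral.integral_mul_const, intervalIntegral.integral_comp_mul_left
      (fun x => √(1 + T ^ 2) * (f (x + c) (Real.arsinh (T * Real.sin x)) /
          √(1 + (T * Real.sin x) ^ 2))) Real.pi_ne_zero] at h2
    simp only [mul_zero, mul_one, smul_eq_mul] at h2
    rw [intervalIntegral.integral_const_mul] at h2
    rw [div_le_iff₀ hT0]
    have hpi := Real.pi_pos
    have e2 : Real.pi⁻¹ * (√(1 + T ^ 2) * ∫ x in (0 : ℝ)..Real.pi,
        f (x + c) (Real.arsinh (T * Real.sin x)) / √(1 + (T * Real.sin x) ^ 2)) * Real.pi =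
        (∫ x in (0 : ℝ)..Real.pi,
        f (x + c) (Real.arsinh (T * Real.sin x)) / √(1 + (T * Real.sin x) ^ 2)) * √(1 + T ^ 2) := by
      field_simp
    rw [e2] at h2
    exact h2
  have hcF : Continuous (fun p : ℝ × ℝ =>
      f (p.2 + p.1) (Real.arsinh (T * Real.sin p.2)) / √(1 + (T * Real.sin p.2) ^ 2)) := by
    apply Continuous.div
    · exact hf.cont.comp ((continuous_snd.add continuous_fst).prodMk
        (Real.continuous_arsinh.comp (by fun_prop)))
    · fun_prop
    · intro p; positivity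
  have h4 : ∫ _c in (0 : ℝ)..(2 * Real.pi), Real.pi / √(1 + T ^ 2) ≤
      ∫ c in (0 : ℝ)..(2 * Real.pi), ∫ x in (0 : ℝ)..Real.pi,
        f (x + c) (Real.arsinh (T * Real.sin x)) / √(1 + (T * Real.sin x) ^ 2) := by
    apply intervalIntegral.integral_mono_on (by positivity) (by simp)
    · apply Continuous.intervalIntegrable
      exact intervalIntegral.continuous_parametric_intervalIntegral_of_continuous' hcF _ _
    · intro c _
      exact h1 c
  rw [swap_int (fun c x => f (x + c) (Real.arsinh (T * Real.sin x)) /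
    √(1 + (T * Real.sin x) ^ 2)) hcF] at h4
  simp only [intervalIntegral.integral_div, fb_shift hf] at h4
  simp only [intervalIntegral.integral_const, smul_eq_mul, sub_zero] at h4
  calc 2 * Real.pi ^ 2 / √(1 + T ^ 2) = 2 * Real.pi * Real.pi / √(1 + T ^ 2) := by ring
    _ ≤ _ := h4

/-- vertical loops -/
theorem vertical (H : ∀ c : ℝ, Real.pi ≤ ∫ u in (-h)..h, f c u) :
    2 * Real.pi ^ 2 ≤ ∫ u in (-h)..h, fb f u := by
  have h4 : ∫ _c in (0 : ℝ)..(2 * Real.pi), Real.pi ≤
      ∫ c in (0 : ℝ)..(2 * Real.pi), ∫ u in (-h)..h, f c u := by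
    apply intervalIntegral.integral_mono_on (by positivity) (by simp)
    · apply Continuous.intervalIntegrable
      exact intervalIntegral.continuous_parametric_intervalIntegral_of_continuous' hf.cont _ _
    · intro c _
      exact H c
  rw [swap_int f hf.cont] at h4
  simp only [intervalIntegral.integral_const, smul_eq_mul, sub_zero] at h4
  unfold fb
  calc 2 * Real.pi ^ 2 = 2 * Real.pi * Real.pi := by ring
    _ ≤ _ := h4

end

/-- the length of a vertical segment -/
theorem length_vertical (f : ℝ → ℝ → ℝ) {h : ℝ} (h0 : 0 < h) (a c : ℝ) :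
    length f (fun _ => c) (fun t => 2 * h * t + a) = ∫ u in a..(2 * h + a), f c u := by
  have hX : ∀ t : ℝ, HasDerivAt (fun _ : ℝ => c) 0 t := fun t => hasDerivAt_const t c
  have hU : ∀ t : ℝ, HasDerivAt (fun t : ℝ => 2 * h * t + a) (2 * h) t := by
    intro t
    have := ((hasDerivAt_id t).const_mul (2 * h)).add_const a
    simpa using this
  unfold length
  have h3 : ∀ t : ℝ, f c (2 * h * t + a) *
      √(deriv (fun _ : ℝ => c) t ^ 2 + deriv (fun t : ℝ => 2 * h * t + a) t ^ 2) =
      f c (2 * h * t + a) * (2 * h) := by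
    intro t
    rw [(hX t).deriv, (hU t).deriv]
    rw [show (0 : ℝ) ^ 2 + (2 * h) ^ 2 = (2 * h) ^ 2 by ring, Real.sqrt_sq (by positivity)]
  simp only [h3]
  rw [intervalIntegral.integral_mul_const,
    intervalIntegral.integral_comp_mul_add (fun u => f c u) (by positivity : 2 * h ≠ 0)]
  simp only [mul_zero, zero_add, mul_one, smul_eq_mul]
  field_simp

/-- the great circles are odd loops -/
theorem oddLoop_great (h T c : ℝ) : OddLoop h (fun t => Real.pi * t + c)
    (fun t => Real.arsinh (T * Real.sin (Real.pi * t))) := by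
  refine ⟨by fun_prop, ?_, 1, 0, by decide, ?_⟩
  · apply Real.contDiff_arsinh.comp
    fun_prop
  · intro t
    constructor
    · push_cast; ring
    · rw [show Real.pi * (t + 1) = Real.pi * t + Real.pi by ring, Real.sin_add_pi]
      rw [mul_neg, Real.arsinh_neg]
      simp

/-- the vertical loops are odd loops -/
theorem oddLoop_vertical (h a c : ℝ) : OddLoop h (fun _ => c) (fun t => 2 * h * t + a) := by
  refine ⟨by fun_prop, by fun_prop, 0, 1, by decide, ?_⟩
  intro t
  constructor
  · simp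
  · push_cast
    simp only [zpow_zero]
    ring

/-- The Möbius band `M` obtained by cutting `K_h` along the closed curve `u = 0`: its universal cover
is the strip `0 ≤ u ≤ 2 h`, and `(x, 2 h)` is the boundary point `(x + π, 0)`. Its boundary has length
`2 π` for the metric `f² (dx² + du²)`, and every smooth curve of `M` joining two boundary points is at
least as long as one of the boundary arcs joining them. -/
structure FillsCircle (h : ℝ) (f : ℝ → ℝ → ℝ) : Prop where
  boundary : ∫ x in (0 : ℝ)..(2 * Real.pi), f x 0 = 2 * Real.pi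
  same : ∀ X U : ℝ → ℝ, ContDiff ℝ (⊤ : ℕ∞) X → ContDiff ℝ (⊤ : ℕ∞) U →
    (∀ t ∈ Icc (0 : ℝ) 1, U t ∈ Icc 0 (2 * h)) → U 0 = 0 → U 1 = 0 →
    ∃ k : ℤ, |∫ s in (X 0)..(X 1 + 2 * Real.pi * k), f s 0| ≤ length f X U
  across : ∀ X U : ℝ → ℝ, ContDiff ℝ (⊤ : ℕ∞) X → ContDiff ℝ (⊤ : ℕ∞) U →
    (∀ t ∈ Icc (0 : ℝ) 1, U t ∈ Icc 0 (2 * h)) → U 0 = 0 → U 1 = 2 * h →
    ∃ k : ℤ, |∫ s in (X 0)..(X 1 + Real.pi + 2 * Real.pi * k), f s 0| ≤ length f X U

/-- boundary arcs between antipodal points -/
theorem arc_antipodal {h : ℝ} {f : ℝ → ℝ → ℝ} (hf : ConformalFactor h f)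
    (hb : ∫ x in (0 : ℝ)..(2 * Real.pi), f x 0 = 2 * Real.pi) (c : ℝ) (k : ℤ) :
    Real.pi ≤ |∫ s in c..(c + Real.pi + 2 * Real.pi * k), f s 0| := by
  have hfc : Continuous (fun x => f x 0) := hf.cont_comp continuous_id continuous_const
  have hper : Function.Periodic (fun x => f x 0) Real.pi := by
    intro x
    have := hf.glide x 0
    rwa [neg_zero] at this
  have h1 : ∫ s in (0 : ℝ)..Real.pi, f s 0 = Real.pi := by
    have e1 := hper.intervalIntegral_add_eq Real.pi 0
    rw [zero_add, ← two_mul] at e1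
    rw [← intervalIntegral.integral_add_adjacent_intervals (hfc.intervalIntegrable 0 Real.pi)
      (hfc.intervalIntegrable Real.pi (2 * Real.pi)), e1] at hb
    linarith
  have h2 : ∫ s in c..(c + Real.pi + 2 * Real.pi * k), f s 0 = (1 + 2 * k) * Real.pi := by
    have e2 : c + Real.pi + 2 * Real.pi * k = c + (1 + 2 * k : ℤ) • Real.pi := by
      rw [zsmul_eq_mul]; push_cast; ring
    rw [e2, hper.intervalIntegral_add_zsmul_eq (1 + 2 * k) c
      (fun a b => hfc.intervalIntegrable a b)]
    have e3 := hper.intervalIntegral_add_eq c 0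
    rw [zero_add, h1] at e3
    rw [e3, zsmul_eq_mul]
    push_cast
    ring
  rw [h2, abs_mul, abs_of_pos Real.pi_pos]
  have h3 : (1 : ℝ) ≤ |1 + 2 * (k : ℝ)| := by
    have : (1 : ℤ) ≤ |1 + 2 * k| := Int.one_le_abs (by omega)
    exact_mod_cast this
  nlinarith [Real.pi_pos]

end Pool.Agent.Q146.KB
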