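import Pool.Agent.Q146.KB.Int

/-!
# The positivity of a weighted mean from the positivity of the means over great circles
-/

set_option autoImplicit false

open Set MeasureTheory Filter Topology

namespace Pool.Agent.Q146.KB

/-- the integrand in the plane, `p = (Z, Y)` -/
noncomputable def GG (ψ : ℝ → ℝ) (T₀ : ℝ) (p : ℝ × ℝ) : ℝ :=
  ψ p.2 / √(1 + p.2 ^ 2) * (√(T₀ ^ 2 - p.2 ^ 2 - p.1 ^ 2) / (1 + p.2 ^ 2 + p.1 ^ 2))

theorem GG_cont {ψ : ℝ → ℝ} (hψ : Continuous ψ) (T₀ : ℝ) : Continuous (GG ψ T₀) := by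
  unfold GG
  apply Continuous.mul
  · apply Continuous.div (by fun_prop) (by fun_prop)
    intro p; positivity
  · apply Continuous.div (by fun_prop) (by fun_prop)
    intro p; positivity

theorem GG_zero (ψ : ℝ → ℝ) (T₀ : ℝ) (p : ℝ × ℝ) (hp : T₀ ^ 2 ≤ p.2 ^ 2 + p.1 ^ 2) :
    GG ψ T₀ p = 0 := by
  unfold GG
  have h : √(T₀ ^ 2 - p.2 ^ 2 - p.1 ^ 2) = 0 := Real.sqrt_eq_zero_of_nonpos (by linarith)
  rw [h]
  simp

theorem GG_supp (ψ : ℝ → ℝ) (T₀ : ℝ) : HasCompactSupport (GG ψ T₀) := by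
  apply HasCompactSupport.intro (K := Icc (-|T₀|) |T₀| ×ˢ Icc (-|T₀|) |T₀|)
    (isCompact_Icc.prod isCompact_Icc)
  intro p hp
  apply GG_zero
  by_contra hcon
  push Not at hcon
  apply hp
  have h1 : p.1 ^ 2 ≤ T₀ ^ 2 := by nlinarith [sq_nonneg p.2]
  have h2 : p.2 ^ 2 ≤ T₀ ^ 2 := by nlinarith [sq_nonneg p.1]
  exact ⟨abs_le.1 (sq_le_sq.1 h1), abs_le.1 (sq_le_sq.1 h2)⟩

theorem GG_int {ψ : ℝ → ℝ} (hψ : Continuous ψ) (T₀ : ℝ) : Integrable (GG ψ T₀) :=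
  (GG_cont hψ T₀).integrable_of_hasCompactSupport (GG_supp ψ T₀)

theorem inner_int (ψ : ℝ → ℝ) {T₀ : ℝ} (h0 : 0 < T₀) (Y : ℝ) :
    ∫ Z, GG ψ T₀ (Z, Y) = (Ioc (-T₀) T₀).indicator (fun Y =>
      ψ Y / √(1 + Y ^ 2) * (Real.pi * (√(1 + T₀ ^ 2) / √(1 + Y ^ 2) - 1))) Y := by
  by_cases hY : Y ^ 2 < T₀ ^ 2
  · have hY' : |Y| < T₀ := by
      have := sq_lt_sq.1 hY
      rwa [abs_of_pos h0] at this
    have hY2 := abs_lt.1 hY'
    rw [indicator_of_mem (show Y ∈ Ioc (-T₀) T₀ from ⟨hY2.1, hY2.2.le⟩)]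
    set R := √(T₀ ^ 2 - Y ^ 2) with hR
    have hR2 : R ^ 2 = T₀ ^ 2 - Y ^ 2 := Real.sq_sqrt (by linarith)
    have hR0 : 0 ≤ R := Real.sqrt_nonneg _
    set a := √(1 + Y ^ 2) with ha
    have ha2 : a ^ 2 = 1 + Y ^ 2 := Real.sq_sqrt (by positivity)
    have ha0 : 0 < a := Real.sqrt_pos.2 (by positivity)
    have hJ := integral_J a R ha0 hR0
    have e1 : a ^ 2 + R ^ 2 = 1 + T₀ ^ 2 := by rw [ha2, hR2]; ring
    rw [e1] at hJ
    rw [← hJ, intervalIntegral.integral_of_le (by linarith), ← integral_const_mul,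
      ← integral_indicator measurableSet_Ioc]
    apply integral_congr_ae
    refine Filter.Eventually.of_forall fun Z => ?_
    simp only
    by_cases hZ : Z ∈ Ioc (-R) R
    · rw [indicator_of_mem hZ]
      unfold GG
      simp only
      rw [hR2, ha2]
    · rw [indicator_of_notMem hZ]
      apply GG_zero
      simp only
      by_contra hcon
      push Not at hcon
      apply hZ
      have h1 : Z ^ 2 < R ^ 2 := by rw [hR2]; linarith
      have h2 := sq_lt_sq.1 h1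
      rw [abs_of_nonneg hR0] at h2
      have h3 := abs_lt.1 h2
      exact ⟨h3.1, h3.2.le⟩
  · push Not at hY
    have h1 : ∀ Z, GG ψ T₀ (Z, Y) = 0 := by
      intro Z
      apply GG_zero
      simp only
      nlinarith [sq_nonneg Z]
    simp only [h1, integral_zero]
    by_cases hm : Y ∈ Ioc (-T₀) T₀
    · have hYT : Y ^ 2 = T₀ ^ 2 := by
        apply le_antisymm _ hY
        apply sq_le_sq'
        · exact hm.1.le
        · exact hm.2
      rw [indicator_of_mem hm, hYT, div_self]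
      · ring
      · have : 0 < √(1 + T₀ ^ 2) := Real.sqrt_pos.2 (by positivity)
        exact this.ne'
    · rw [indicator_of_notMem hm]

theorem plane_int {ψ : ℝ → ℝ} (hψ : Continuous ψ) {T₀ : ℝ} (h0 : 0 < T₀) :
    ∫ p, GG ψ T₀ p = ∫ Y in (-T₀)..T₀,
      ψ Y / √(1 + Y ^ 2) * (Real.pi * (√(1 + T₀ ^ 2) / √(1 + Y ^ 2) - 1)) := by
  rw [intervalIntegral.integral_of_le (by linarith), ← integral_indicator measurableSet_Ioc]
  have h1 := integral_prod_symm (GG ψ T₀) (GG_int hψ T₀)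
  rw [show (volume : Measure (ℝ × ℝ)) = volume.prod volume from rfl, h1]
  congr 1
  ext Y
  exact inner_int ψ h0 Y

theorem polar_nonneg {ψ : ℝ → ℝ} (hψ : Continuous ψ) {T₀ : ℝ} (h0 : 0 < T₀)
    (H : ∀ T ∈ Ioo 0 T₀, 0 ≤ ∫ x in (-Real.pi)..Real.pi,
      ψ (T * Real.sin x) / √(1 + (T * Real.sin x) ^ 2)) :
    0 ≤ ∫ p, GG ψ T₀ p := by
  rw [← integral_comp_polarCoord_symm (GG ψ T₀)]
  have hF : ∀ q : ℝ × ℝ, q.1 • GG ψ T₀ (polarCoord.symm q) =
      q.1 * (√(T₀ ^ 2 - q.1 ^ 2) / (1 + q.1 ^ 2)) *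
        (ψ (q.1 * Real.sin q.2) / √(1 + (q.1 * Real.sin q.2) ^ 2)) := by
    intro q
    simp only [polarCoord_symm_apply, GG, smul_eq_mul]
    have hsc := Real.sin_sq_add_cos_sq q.2
    have e1 : T₀ ^ 2 - (q.1 * Real.sin q.2) ^ 2 - (q.1 * Real.cos q.2) ^ 2 = T₀ ^ 2 - q.1 ^ 2 := by
      have : q.1 ^ 2 * (Real.sin q.2 ^ 2 + Real.cos q.2 ^ 2) = q.1 ^ 2 := by rw [hsc, mul_one]
      nlinarith [this]
    have e2 : 1 + (q.1 * Real.sin q.2) ^ 2 + (q.1 * Real.cos q.2) ^ 2 = 1 + q.1 ^ 2 := by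
      have : q.1 ^ 2 * (Real.sin q.2 ^ 2 + Real.cos q.2 ^ 2) = q.1 ^ 2 := by rw [hsc, mul_one]
      nlinarith [this]
    rw [e1, e2]
    ring
  have hcontF : Continuous (fun q : ℝ × ℝ => q.1 * (√(T₀ ^ 2 - q.1 ^ 2) / (1 + q.1 ^ 2)) *
        (ψ (q.1 * Real.sin q.2) / √(1 + (q.1 * Real.sin q.2) ^ 2))) := by
    apply Continuous.mul
    · apply Continuous.mul continuous_fst
      apply Continuous.div (by fun_prop) (by fun_prop)
      intro p; positivity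
    · apply Continuous.div (by fun_prop) (by fun_prop)
      intro p; positivity
  simp only [hF]
  rw [polarCoord_target]
  have hint : IntegrableOn (fun q : ℝ × ℝ => q.1 * (√(T₀ ^ 2 - q.1 ^ 2) / (1 + q.1 ^ 2)) *
        (ψ (q.1 * Real.sin q.2) / √(1 + (q.1 * Real.sin q.2) ^ 2)))
      (Ioi 0 ×ˢ Ioo (-Real.pi) Real.pi) (volume.prod volume) := by
    have hc : IntegrableOn (fun q : ℝ × ℝ => q.1 * (√(T₀ ^ 2 - q.1 ^ 2) / (1 + q.1 ^ 2)) *
        (ψ (q.1 * Real.sin q.2) / √(1 + (q.1 * Real.sin q.2) ^ 2)))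
      (Icc 0 T₀ ×ˢ Icc (-Real.pi) Real.pi) (volume.prod volume) :=
      hcontF.continuousOn.integrableOn_compact (isCompact_Icc.prod isCompact_Icc)
    apply hc.of_forall_diff_eq_zero (measurableSet_Ioi.prod measurableSet_Ioo)
    intro q hq
    have hq1 := hq.1.1
    have hq2 := hq.1.2
    have : T₀ < q.1 := by
      by_contra hcon
      push Not at hcon
      exact hq.2 ⟨⟨(mem_Ioi.1 hq1).le, hcon⟩, ⟨hq2.1.le, hq2.2.le⟩⟩
    rw [Real.sqrt_eq_zero_of_nonpos (by nlinarith)]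
    simp
  rw [show (volume : Measure (ℝ × ℝ)) = volume.prod volume from rfl, setIntegral_prod _ hint]
  apply setIntegral_nonneg measurableSet_Ioi
  intro T hT
  simp only
  rw [integral_const_mul]
  by_cases hTT : T < T₀
  · apply mul_nonneg
    · have : 0 < T := hT
      positivity
    · have := H T ⟨hT, hTT⟩
      rw [intervalIntegral.integral_of_le (by linarith [Real.pi_pos])] at this
      rwa [integral_Ioc_eq_integral_Ioo] at this
  · push Not at hTT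
    rw [Real.sqrt_eq_zero_of_nonpos (by nlinarith)]
    simp

theorem star {ψ : ℝ → ℝ} (hψ : Continuous ψ) {T₀ : ℝ} (h0 : 0 ≤ T₀)
    (H : ∀ T ∈ Ioo 0 T₀, 0 ≤ ∫ x in (-Real.pi)..Real.pi,
      ψ (T * Real.sin x) / √(1 + (T * Real.sin x) ^ 2)) :
    0 ≤ ∫ Y in (-T₀)..T₀, ψ Y / √(1 + Y ^ 2) * (√(1 + T₀ ^ 2) / √(1 + Y ^ 2) - 1) := by
  rcases h0.eq_or_lt with h0 | h0
  · rw [← h0]; simp
  have h1 := polar_nonneg hψ h0 H
  rw [plane_int hψ h0] at h1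
  have h2 : ∫ Y in (-T₀)..T₀,
      ψ Y / √(1 + Y ^ 2) * (Real.pi * (√(1 + T₀ ^ 2) / √(1 + Y ^ 2) - 1)) =
      Real.pi * ∫ Y in (-T₀)..T₀, ψ Y / √(1 + Y ^ 2) * (√(1 + T₀ ^ 2) / √(1 + Y ^ 2) - 1) := by
    rw [← intervalIntegral.integral_const_mul]
    congr 1
    ext Y
    ring
  rw [h2] at h1
  exact nonneg_of_mul_nonneg_right h1 Real.pi_pos

end Pool.Agent.Q146.KB
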