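import Pool.Agent.Q146.KB.Main

/-!
# Möbius bands filling the circle, in a conformal chart of the surface glued along antipodal boundary
points
-/

set_option autoImplicit false

open Set MeasureTheory Filter Topology

namespace Pool.Agent.Q146.KB

/-- speed of a curve for the metric `f² (dx² + du²)` -/
noncomputable def speed (f : ℝ → ℝ → ℝ) (X U : ℝ → ℝ) (t : ℝ) : ℝ :=
  f (X t) (U t) * √(deriv X t ^ 2 + deriv U t ^ 2)

/-- euclidean distance in the plane -/
noncomputable def eucl (p q : ℝ × ℝ) : ℝ := √((p.1 - q.1) ^ 2 + (p.2 - q.2) ^ 2)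

/-- A Möbius band `M` filling the circle of length `2π` without shortcuts, seen in the Klein bottle `K_h`
obtained from `M` by gluing each boundary point `θ` to the boundary point `θ + π`. `S` is the preimage in
the plane of the glued boundary. A point `p` of `S` comes from the two boundary points `b p` and
`b p + π`; an odd transformation changes `b` by `π`.
`arclength`: the boundary of `M` is a curve of class `C¹` with parameter the arc length (on nearby points,
the boundary distance is at most `1 + ε` times the length of the chord).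
`meets`: the complement of `S` is the interior of `M`, it contains no odd loop.
`noShortcut`: a smooth curve of `M` joining two boundary points and otherwise interior is at least as
long as the shorter boundary arc between them. -/
structure Filling (h : ℝ) (f : ℝ → ℝ → ℝ) (S : Set (ℝ × ℝ))
    (b : ℝ × ℝ → AddCircle (2 * Real.pi)) : Prop where
  closed : IsClosed S
  glide : ∀ x u, (x, u) ∈ S → (x + Real.pi, -u) ∈ S ∧
    b (x + Real.pi, -u) = b (x, u) + ((Real.pi : ℝ) : AddCircle (2 * Real.pi))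
  trans : ∀ x u, (x, u) ∈ S → (x, u + 2 * h) ∈ S ∧
    b (x, u + 2 * h) = b (x, u) + ((Real.pi : ℝ) : AddCircle (2 * Real.pi))
  arclength : ∀ ε : ℝ, 0 < ε → ∃ δ : ℝ, 0 < δ ∧ ∀ p ∈ S, ∀ q ∈ S, eucl p q < δ →
    dist (b p) (b q) ≤ (1 + ε) * (f p.1 p.2 * eucl p q)
  meets : ∀ X U : ℝ → ℝ, OddLoop h X U → ∃ t, (X t, U t) ∈ S
  noShortcut : ∀ X U : ℝ → ℝ, ContDiff ℝ (⊤ : ℕ∞) X → ContDiff ℝ (⊤ : ℕ∞) U → ∀ s t : ℝ, s < t →
    (X s, U s) ∈ S → (X t, U t) ∈ S → (∀ r ∈ Ioo s t, (X r, U r) ∉ S) →
    dist (b (X s, U s)) (b (X t, U t)) ≤ ∫ r in s..t, speed f X U r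

theorem chain {Z : Set ℝ} (hZ : IsClosed Z) {β : ℝ → AddCircle (2 * Real.pi)} {L : ℝ → ℝ}
    (hL : Continuous L) {C δ : ℝ} (hδ : 0 < δ) {a b : ℝ}
    (chord : ∀ r ∈ Z, ∀ r' ∈ Z, a ≤ r → r ≤ r' → r' ≤ b → r' - r ≤ δ →
      dist (β r) (β r') ≤ C * ∫ x in r..r', L x)
    (gap : ∀ r ∈ Z, ∀ r' ∈ Z, a ≤ r → r < r' → r' ≤ b → (∀ x ∈ Ioo r r', x ∉ Z) →
      dist (β r) (β r') ≤ C * ∫ x in r..r', L x) :
    ∀ n : ℕ, ∀ s ∈ Z, ∀ t ∈ Z, a ≤ s → s ≤ t → t ≤ b → t - s ≤ n * δ →
      dist (β s) (β t) ≤ C * ∫ x in s..t, L x := by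
  intro n
  induction n with
  | zero =>
    intro s hs t ht has hst htb hn
    have : s = t := by
      apply le_antisymm hst
      simp at hn
      linarith
    rw [this]; simp
  | succ n ih =>
    intro s hs t ht has hst htb hn
    by_cases hd : t - s ≤ δ
    · exact chord s hs t ht has hst htb hd
    push Not at hd
    have hK1 : IsCompact (Z ∩ Icc s (s + δ)) := isCompact_Icc.inter_left hZ
    obtain ⟨r1, hr1, hr1m⟩ := hK1.exists_isGreatest ⟨s, hs, left_mem_Icc.2 (by linarith)⟩
    have hK2 : IsCompact (Z ∩ Icc (s + δ) t) := isCompact_Icc.inter_left hZ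
    obtain ⟨r2, hr2, hr2m⟩ := hK2.exists_isLeast ⟨t, ht, ⟨by linarith, le_rfl⟩⟩
    have a1 := hr1.2.1
    have a2 := hr1.2.2
    have a3 := hr2.2.1
    have a4 := hr2.2.2
    have d1 := chord s hs r1 hr1.1 has a1 (by linarith) (by linarith)
    have d2 : dist (β r1) (β r2) ≤ C * ∫ x in r1..r2, L x := by
      rcases (a2.trans a3).eq_or_lt with e | e
      · rw [e]; simp
      · apply gap r1 hr1.1 r2 hr2.1 (by linarith) e (by linarith)
        intro x hx hxZ
        rcases le_total x (s + δ) with hxs | hxs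
        · have := hr1m ⟨hxZ, ⟨a1.trans hx.1.le, hxs⟩⟩
          linarith [hx.1]
        · have := hr2m ⟨hxZ, ⟨hxs, hx.2.le.trans a4⟩⟩
          linarith [hx.2]
    have d3 := ih r2 hr2.1 t ht (by linarith) a4 htb (by push_cast at hn; nlinarith)
    have e1 : ∫ x in s..t, L x = (∫ x in s..r1, L x) + (∫ x in r1..r2, L x) +
        ∫ x in r2..t, L x := by
      rw [intervalIntegral.integral_add_adjacent_intervals (hL.intervalIntegrable _ _)
        (hL.intervalIntegrable _ _), intervalIntegral.integral_add_adjacent_intervals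
        (hL.intervalIntegrable _ _) (hL.intervalIntegrable _ _)]
    rw [e1]
    have t1 := dist_triangle (β s) (β r1) (β t)
    have t2 := dist_triangle (β r1) (β r2) (β t)
    nlinarith

/-- the chord is shorter than the curve -/
theorem eucl_le {X U : ℝ → ℝ} (hX : ContDiff ℝ (⊤ : ℕ∞) X) (hU : ContDiff ℝ (⊤ : ℕ∞) U)
    {r r' : ℝ} (hr : r ≤ r') :
    eucl (X r, U r) (X r', U r') ≤ ∫ x in r..r', √(deriv X x ^ 2 + deriv U x ^ 2) := by
  have hXd : ∀ x, HasDerivAt X (deriv X x) x := fun x =>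
    ((hX.differentiable (by simp)) x).hasDerivAt
  have hUd : ∀ x, HasDerivAt U (deriv U x) x := fun x =>
    ((hU.differentiable (by simp)) x).hasDerivAt
  have hXc : Continuous (deriv X) := hX.continuous_deriv (by simp)
  have hUc : Continuous (deriv U) := hU.continuous_deriv (by simp)
  have hg : ∀ x, HasDerivAt (fun x => (X x : ℂ) + (U x : ℂ) * Complex.I)
      (((deriv X x : ℝ) : ℂ) + ((deriv U x : ℝ) : ℂ) * Complex.I) x := by
    intro x
    exact (hXd x).ofReal_comp.add ((hUd x).ofReal_comp.mul_const Complex.I)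
  have hgc : Continuous (fun x => ((deriv X x : ℝ) : ℂ) + ((deriv U x : ℝ) : ℂ) * Complex.I) := by fun_prop
  have h1 := intervalIntegral.integral_eq_sub_of_hasDerivAt (a := r) (b := r')
    (fun x _ => hg x) (hgc.intervalIntegrable _ _)
  have h2 := intervalIntegral.norm_integral_le_integral_norm (μ := volume)
    (f := fun x => ((deriv X x : ℝ) : ℂ) + ((deriv U x : ℝ) : ℂ) * Complex.I) hr
  rw [h1] at h2
  have hnorm : ∀ y z : ℝ, ‖(y : ℂ) + (z : ℂ) * Complex.I‖ = √(y ^ 2 + z ^ 2) := by
    intro y z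
    rw [Complex.norm_add_mul_I]
  simp only [hnorm] at h2
  have e : ((X r' : ℂ) + (U r' : ℂ) * Complex.I) - ((X r : ℂ) + (U r : ℂ) * Complex.I) =
      ((X r' - X r : ℝ) : ℂ) + ((U r' - U r : ℝ) : ℂ) * Complex.I := by push_cast; ring
  rw [e, hnorm] at h2
  unfold eucl
  rw [show ((X r, U r) : ℝ × ℝ).1 - ((X r', U r') : ℝ × ℝ).1 = -(X r' - X r) by simp,
    show ((X r, U r) : ℝ × ℝ).2 - ((X r', U r') : ℝ × ℝ).2 = -(U r' - U r) by simp, neg_sq, neg_sq]
  exact h2

theorem long_of_filling {h : ℝ} {f : ℝ → ℝ → ℝ} (hf : ConformalFactor h f) {S : Set (ℝ × ℝ)}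
    {b : ℝ × ℝ → AddCircle (2 * Real.pi)} (F : Filling h f S b) {X U : ℝ → ℝ}
    (hX : ContDiff ℝ (⊤ : ℕ∞) X) (hU : ContDiff ℝ (⊤ : ℕ∞) U) {t₀ t₁ : ℝ} (ht : t₀ ≤ t₁)
    (h1 : (X t₀, U t₀) ∈ S) (h2 : (X t₁, U t₁) ∈ S) :
    dist (b (X t₀, U t₀)) (b (X t₁, U t₁)) ≤ ∫ r in t₀..t₁, speed f X U r := by
  have hXc : Continuous (deriv X) := hX.continuous_deriv (by simp)
  have hUc : Continuous (deriv U) := hU.continuous_deriv (by simp)
  have hφ : Continuous (fun t => f (X t) (U t)) := hf.cont_comp hX.continuous hU.continuous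
  have hv : Continuous (fun t => √(deriv X t ^ 2 + deriv U t ^ 2)) := by fun_prop
  have hL : Continuous (speed f X U) := hφ.mul hv
  have hL0 : ∀ t, 0 ≤ speed f X U t := fun t =>
    mul_nonneg (hf.pos _ _).le (Real.sqrt_nonneg _)
  have hI0 : 0 ≤ ∫ r in t₀..t₁, speed f X U r :=
    intervalIntegral.integral_nonneg ht (fun t _ => hL0 t)
  have hZ : IsClosed {t | (X t, U t) ∈ S} :=
    F.closed.preimage (hX.continuous.prodMk hU.continuous)
  -- for every factor larger than one
  have key : ∀ ε : ℝ, 0 < ε → dist (b (X t₀, U t₀)) (b (X t₁, U t₁)) ≤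
      (1 + ε) * (1 + ε) * ∫ r in t₀..t₁, speed f X U r := by
    intro ε hε
    obtain ⟨δ₁, hδ₁, hchord⟩ := F.arclength ε hε
    -- uniform continuity of the conformal factor along the curve
    obtain ⟨m, hm, hmin⟩ : ∃ m : ℝ, 0 < m ∧ ∀ t ∈ Icc t₀ t₁, m ≤ f (X t) (U t) := by
      obtain ⟨z, _, hz⟩ := (isCompact_Icc (a := t₀) (b := t₁)).exists_isMinOn
        ⟨t₀, left_mem_Icc.2 ht⟩ hφ.continuousOn
      exact ⟨f (X z) (U z), hf.pos _ _, fun t ht' => hz ht'⟩
    have huc := (isCompact_Icc (a := t₀) (b := t₁)).uniformContinuousOn_of_continuous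
      hφ.continuousOn
    rw [Metric.uniformContinuousOn_iff] at huc
    obtain ⟨δ₂, hδ₂, hu⟩ := huc (ε * m) (by positivity)
    obtain ⟨M, hM, hmax⟩ : ∃ M : ℝ, 0 < M ∧ ∀ t ∈ Icc t₀ t₁,
        √(deriv X t ^ 2 + deriv U t ^ 2) ≤ M := by
      obtain ⟨z, _, hz⟩ := (isCompact_Icc (a := t₀) (b := t₁)).exists_isMaxOn
        ⟨t₀, left_mem_Icc.2 ht⟩ hv.continuousOn
      refine ⟨√(deriv X z ^ 2 + deriv U z ^ 2) + 1, by positivity, fun t ht' => ?_⟩
      have : √(deriv X t ^ 2 + deriv U t ^ 2) ≤ √(deriv X z ^ 2 + deriv U z ^ 2) := hz ht'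
      linarith
    set δ := min (δ₂ / 2) (δ₁ / (2 * M)) with hδdef
    have hδ : 0 < δ := by positivity
    obtain ⟨n, hn⟩ := exists_nat_gt ((t₁ - t₀) / δ)
    have hn' : t₁ - t₀ ≤ n * δ := by
      rw [div_lt_iff₀ hδ] at hn
      exact hn.le
    apply chain hZ (β := fun t => b (X t, U t)) hL hδ (a := t₀) (b := t₁) ?_ ?_ n t₀ h1 t₁ h2
      le_rfl ht le_rfl hn'
    · intro r hr r' hr' har hrr hrb hd
      have hd1 : r' - r ≤ δ₂ / 2 := hd.trans (min_le_left _ _)
      have hd2 : r' - r ≤ δ₁ / (2 * M) := hd.trans (min_le_right _ _)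
      have hE := eucl_le hX hU hrr
      have hE0 : 0 ≤ ∫ x in r..r', √(deriv X x ^ 2 + deriv U x ^ 2) :=
        intervalIntegral.integral_nonneg hrr (fun t _ => Real.sqrt_nonneg _)
      have hEM : ∫ x in r..r', √(deriv X x ^ 2 + deriv U x ^ 2) ≤ M * (r' - r) := by
        have : ∫ x in r..r', √(deriv X x ^ 2 + deriv U x ^ 2) ≤ ∫ _x in r..r', M := by
          apply intervalIntegral.integral_mono_on hrr (hv.intervalIntegrable _ _) (by simp)
          intro x hx
          exact hmax x ⟨har.trans hx.1, hx.2.trans hrb⟩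
        rw [intervalIntegral.integral_const, smul_eq_mul] at this
        linarith
      have hElt : eucl (X r, U r) (X r', U r') < δ₁ := by
        have : M * (r' - r) ≤ δ₁ / 2 := by
          calc M * (r' - r) ≤ M * (δ₁ / (2 * M)) := mul_le_mul_of_nonneg_left hd2 hM.le
            _ = δ₁ / 2 := by field_simp
        linarith
      have hc := hchord _ hr _ hr' hElt
      simp only at hc
      have hcmp : f (X r) (U r) * ∫ x in r..r', √(deriv X x ^ 2 + deriv U x ^ 2) ≤
          (1 + ε) * ∫ x in r..r', speed f X U x := by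
        rw [← intervalIntegral.integral_const_mul, ← intervalIntegral.integral_const_mul]
        apply intervalIntegral.integral_mono_on hrr ((hv.const_mul _).intervalIntegrable _ _)
          ((hL.const_mul _).intervalIntegrable _ _)
        intro x hx
        have hxI : x ∈ Icc t₀ t₁ := ⟨har.trans hx.1, hx.2.trans hrb⟩
        have hrI : r ∈ Icc t₀ t₁ := ⟨har, hrr.trans hrb⟩
        have h3 := hu r hrI x hxI (by
          rw [Real.dist_eq, abs_sub_comm, abs_of_nonneg (by linarith [hx.1])]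
          linarith [hx.2])
        rw [Real.dist_eq] at h3
        have h4 := (abs_lt.1 h3).2
        have h5 := hmin x hxI
        have h6 : f (X r) (U r) ≤ (1 + ε) * f (X x) (U x) := by nlinarith
        unfold speed
        have h7 := Real.sqrt_nonneg (deriv X x ^ 2 + deriv U x ^ 2)
        nlinarith [mul_le_mul_of_nonneg_right h6 h7]
      have hfr := hf.pos (X r) (U r)
      calc dist (b (X r, U r)) (b (X r', U r'))
          ≤ (1 + ε) * (f (X r) (U r) * eucl (X r, U r) (X r', U r')) := hc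
        _ ≤ (1 + ε) * (f (X r) (U r) * ∫ x in r..r', √(deriv X x ^ 2 + deriv U x ^ 2)) := by
            apply mul_le_mul_of_nonneg_left _ (by positivity)
            exact mul_le_mul_of_nonneg_left hE hfr.le
        _ ≤ (1 + ε) * ((1 + ε) * ∫ x in r..r', speed f X U x) :=
            mul_le_mul_of_nonneg_left hcmp (by positivity)
        _ = (1 + ε) * (1 + ε) * ∫ x in r..r', speed f X U x := by ring
    · intro r hr r' hr' _ hrr _ hgap
      have h3 := F.noShortcut X U hX hU r r' hrr hr hr' hgap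
      have h4 : 0 ≤ ∫ x in r..r', speed f X U x :=
        intervalIntegral.integral_nonneg hrr.le (fun t _ => hL0 t)
      refine h3.trans ?_
      nlinarith [mul_nonneg hε.le h4, mul_nonneg (mul_nonneg hε.le hε.le) h4]
  -- limit
  have hlim : Tendsto (fun ε : ℝ => (1 + ε) * (1 + ε) * ∫ r in t₀..t₁, speed f X U r)
      (𝓝[>] 0) (𝓝 ((1 + 0) * (1 + 0) * ∫ r in t₀..t₁, speed f X U r)) := by
    apply Tendsto.mono_left _ nhdsWithin_le_nhds
    apply Continuous.tendsto (f := fun ε : ℝ => (1 + ε) * (1 + ε) * ∫ r in t₀..t₁, speed f X U r)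
    fun_prop
  have := ge_of_tendsto hlim (eventually_nhdsWithin_of_forall (fun ε hε => key ε hε))
  simpa using this

theorem dist_half (θ : AddCircle (2 * Real.pi)) :
    dist θ (θ + ((Real.pi : ℝ) : AddCircle (2 * Real.pi))) = Real.pi := by
  rw [dist_eq_norm, sub_add_cancel_left, norm_neg]
  have h1 := AddCircle.norm_half_period_eq (2 * Real.pi)
  rw [show 2 * Real.pi / 2 = Real.pi by ring, abs_of_pos (by positivity)] at h1
  rw [h1]; ring

/-- in the glued surface of a filling, the loops of the two families have length at least `π` -/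
theorem odd_of_filling {h : ℝ} {f : ℝ → ℝ → ℝ} (hf : ConformalFactor h f) {S : Set (ℝ × ℝ)}
    {b : ℝ × ℝ → AddCircle (2 * Real.pi)} (F : Filling h f S b) {X U : ℝ → ℝ}
    (hXU : OddLoop h X U)
    (hgen : (∀ t, X (t + 1) = X t + Real.pi ∧ U (t + 1) = -U t) ∨
      (∀ t, X (t + 1) = X t ∧ U (t + 1) = U t + 2 * h)) :
    Real.pi ≤ length f X U := by
  obtain ⟨t₀, ht₀⟩ := F.meets X U hXU
  have hX := hXU.smoothX
  have hU := hXU.smoothU
  have hXc : Continuous (deriv X) := hX.continuous_deriv (by simp)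
  have hUc : Continuous (deriv U) := hU.continuous_deriv (by simp)
  have hφ : Continuous (fun t => f (X t) (U t)) := hf.cont_comp hX.continuous hU.continuous
  have hXd : ∀ x, HasDerivAt X (deriv X x) x := fun x =>
    ((hX.differentiable (by simp)) x).hasDerivAt
  have hUd : ∀ x, HasDerivAt U (deriv U x) x := fun x =>
    ((hU.differentiable (by simp)) x).hasDerivAt
  have hshX : ∀ t, deriv (fun s => X (s + 1)) t = deriv X (t + 1) := fun t =>
    deriv_comp_add_const X 1 t
  have hshU : ∀ t, deriv (fun s => U (s + 1)) t = deriv U (t + 1) := fun t =>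
    deriv_comp_add_const U 1 t
  have hper : Function.Periodic (speed f X U) 1 := by
    intro t
    unfold speed
    rcases hgen with hg | hg
    · have e1 : deriv X (t + 1) = deriv X t := by
        rw [← hshX]
        have : (fun s => X (s + 1)) = fun s => X s + Real.pi := funext fun s => (hg s).1
        rw [this, deriv_add_const]
      have e2 : deriv U (t + 1) = -deriv U t := by
        rw [← hshU]
        have : (fun s => U (s + 1)) = fun s => -U s := funext fun s => (hg s).2
        rw [this, deriv.fun_neg]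
      rw [(hg t).1, (hg t).2, hf.glide, e1, e2, neg_sq]
    · have e1 : deriv X (t + 1) = deriv X t := by
        rw [← hshX]
        have : (fun s => X (s + 1)) = fun s => X s := funext fun s => (hg s).1
        rw [this]
      have e2 : deriv U (t + 1) = deriv U t := by
        rw [← hshU]
        have : (fun s => U (s + 1)) = fun s => U s + 2 * h := funext fun s => (hg s).2
        rw [this, deriv_add_const]
      rw [(hg t).1, (hg t).2, hf.trans, e1, e2]
  have h2 : (X (t₀ + 1), U (t₀ + 1)) ∈ S ∧ b (X (t₀ + 1), U (t₀ + 1)) =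
      b (X t₀, U t₀) + ((Real.pi : ℝ) : AddCircle (2 * Real.pi)) := by
    rcases hgen with hg | hg
    · rw [(hg t₀).1, (hg t₀).2]; exact F.glide _ _ ht₀
    · rw [(hg t₀).1, (hg t₀).2]; exact F.trans _ _ ht₀
  have h3 := long_of_filling hf F hX hU (show t₀ ≤ t₀ + 1 by linarith) ht₀ h2.1
  rw [h2.2, dist_half] at h3
  have h4 := hper.intervalIntegral_add_eq t₀ 0
  rw [zero_add] at h4
  rw [h4] at h3
  exact h3

end Pool.Agent.Q146.KB
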